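import Pool.Agent.Helper54.SR.Defs

/-!
# SR-D6a: an `ℓ`-th root of `1 - t / u`
-/

set_option autoImplicit false
open scoped Pointwise
open Polynomial Pool.Agent.Helper54.PW

namespace Pool.Agent.Helper54.SR

section series
variable {k : Type} [Field k]

private theorem d6a_step {K : Type} [Field K] {ℓ : ℕ} (hℓ : (ℓ : K) ≠ 0) (F : PowerSeries K)
    (m : ℕ) (hm : 1 ≤ m) (V : PowerSeries K) (hV : PowerSeries.constantCoeff V = 1)
    (h : PowerSeries.X ^ m ∣ F - V ^ ℓ) :
    ∃ V' : PowerSeries K, PowerSeries.constantCoeff V' = 1 ∧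
      PowerSeries.X ^ (m + 1) ∣ F - V' ^ ℓ ∧ PowerSeries.X ^ m ∣ V' - V := by
  obtain ⟨E, hE⟩ := h
  set c : PowerSeries K := PowerSeries.C ((ℓ : K)⁻¹ * PowerSeries.constantCoeff E) with hc
  have hXm : PowerSeries.constantCoeff ((PowerSeries.X : PowerSeries K) ^ m) = 0 := by
    rw [map_pow, PowerSeries.constantCoeff_X, zero_pow (by omega)]
  refine ⟨V + c * PowerSeries.X ^ m, ?_, ?_, ?_⟩
  · rw [map_add, map_mul, hXm, mul_zero, add_zero, hV]
  · obtain ⟨b, hb⟩ := Polynomial.powAddExpansion V (c * PowerSeries.X ^ m) ℓ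
    have h1 : F - (V + c * PowerSeries.X ^ m) ^ ℓ =
        PowerSeries.X ^ m * (E - (ℓ : PowerSeries K) * V ^ (ℓ - 1) * c) -
          PowerSeries.X ^ (m + 1) * (b * c ^ 2 * PowerSeries.X ^ (m - 1)) := by
      have h2 : (PowerSeries.X : PowerSeries K) ^ (m + 1) * (b * c ^ 2 * PowerSeries.X ^ (m - 1)) =
          b * (c * PowerSeries.X ^ m) ^ 2 := by
        have h3 : (PowerSeries.X : PowerSeries K) ^ m * PowerSeries.X ^ m =
            PowerSeries.X ^ (m + 1) * PowerSeries.X ^ (m - 1) := by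
          rw [← pow_add, ← pow_add]
          congr 1
          omega
        linear_combination (-(b * c ^ 2)) * h3
      rw [h2, hb]
      linear_combination hE
    rw [h1]
    refine dvd_sub ?_ (dvd_mul_right _ _)
    rw [pow_succ]
    refine mul_dvd_mul_left _ ?_
    rw [PowerSeries.X_dvd_iff, map_sub, map_mul, map_mul, map_pow, hV, one_pow, mul_one, hc,
      PowerSeries.constantCoeff_C, map_natCast, mul_inv_cancel_left₀ hℓ, sub_self]
  · exact ⟨c, by ring⟩

private theorem d6a_root {K : Type} [Field K] {ℓ : ℕ} (hℓ : (ℓ : K) ≠ 0) (F : PowerSeries K)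
    (hF : PowerSeries.constantCoeff F = 1) :
    ∃ U : PowerSeries K, PowerSeries.constantCoeff U = 1 ∧ U ^ ℓ = F := by
  classical
  let P : ℕ → PowerSeries K → Prop := fun n V =>
    PowerSeries.constantCoeff V = 1 ∧ PowerSeries.X ^ (n + 1) ∣ F - V ^ ℓ
  have h0 : P 0 1 := by
    refine ⟨map_one _, ?_⟩
    rw [zero_add, pow_one, one_pow, PowerSeries.X_dvd_iff, map_sub, hF, map_one, sub_self]
  have hs : ∀ n (V : {V // P n V}), ∃ V' : {V // P (n + 1) V},
      PowerSeries.X ^ (n + 1) ∣ V'.1 - V.1 := by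
    rintro n ⟨V, hV1, hV2⟩
    obtain ⟨V', h1, h2, h3⟩ := d6a_step hℓ F (n + 1) (by omega) V hV1 hV2
    exact ⟨⟨V', h1, h2⟩, h3⟩
  let s : ∀ n, {V // P n V} := fun n =>
    Nat.rec ⟨1, h0⟩ (fun n V => (hs n V).choose) n
  have hs' : ∀ n, PowerSeries.X ^ (n + 1) ∣ (s (n + 1)).1 - (s n).1 := fun n =>
    (hs n (s n)).choose_spec
  have hmono : ∀ n d, PowerSeries.X ^ (n + 1) ∣ (s (n + d)).1 - (s n).1 := by
    intro n d
    induction d with
    | zero => simp
    | succ d ih =>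
      have h1 : (s (n + (d + 1))).1 - (s n).1 =
          ((s (n + d + 1)).1 - (s (n + d)).1) + ((s (n + d)).1 - (s n).1) := by
        rw [← add_assoc]
        ring
      rw [h1]
      exact dvd_add ((pow_dvd_pow _ (by omega)).trans (hs' (n + d))) ih
  let U : PowerSeries K := PowerSeries.mk fun n => PowerSeries.coeff n (s n).1
  have hU : ∀ n, PowerSeries.X ^ (n + 1) ∣ U - (s n).1 := by
    intro n
    rw [PowerSeries.X_pow_dvd_iff]
    intro i hi
    obtain ⟨d, rfl⟩ := Nat.exists_eq_add_of_le (Nat.lt_succ_iff.1 hi)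
    have h1 := (PowerSeries.X_pow_dvd_iff.1 (hmono i d)) i (Nat.lt_succ_self i)
    rw [map_sub] at h1
    rw [map_sub, PowerSeries.coeff_mk]
    linear_combination -h1
  refine ⟨U, ?_, ?_⟩
  · have h1 := PowerSeries.X_dvd_iff.1 (by simpa using hU 0)
    rw [map_sub, (s 0).2.1] at h1
    linear_combination h1
  · have h1 : ∀ n, PowerSeries.X ^ (n + 1) ∣ U ^ ℓ - F := by
      intro n
      have h2 : U ^ ℓ - F = (U ^ ℓ - (s n).1 ^ ℓ) - (F - (s n).1 ^ ℓ) := by ring
      rw [h2]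
      exact dvd_sub ((hU n).trans (sub_dvd_pow_sub_pow _ _ _)) (s n).2.2
    rw [← sub_eq_zero]
    ext n
    rw [map_zero]
    exact (PowerSeries.X_pow_dvd_iff.1 (h1 n)) n (Nat.lt_succ_self n)

/-- SR-D6a -/
theorem exists_U {ℓ : ℕ} (hℓ : (ℓ : k) ≠ 0) : ∃ U : EE k, PowerSeries.constantCoeff U = 1 ∧
    U ^ ℓ * iI k (uO k) = iI k (uO k) - iI k (tO k) := by
  set u : LaurentSeries k := algebraMap (PowerSeries k) (LaurentSeries k) PowerSeries.X with hu
  have hu0 : u ≠ 0 := by
    intro h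
    rw [hu, map_eq_zero_iff _ (IsFractionRing.injective _ _)] at h
    exact PowerSeries.X_ne_zero h
  have hℓ' : (ℓ : LaurentSeries k) ≠ 0 := by
    have h1 : (ℓ : LaurentSeries k) =
        algebraMap (PowerSeries k) (LaurentSeries k) (PowerSeries.C (ℓ : k)) := by
      rw [map_natCast, map_natCast]
    rw [h1]
    intro h
    rw [map_eq_zero_iff _ (IsFractionRing.injective _ _)] at h
    exact hℓ (PowerSeries.C_injective (h.trans (map_zero _).symm))
  obtain ⟨U, hU1, hU2⟩ := d6a_root hℓ' (1 - PowerSeries.C u⁻¹ * PowerSeries.X)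
    (by simp)
  refine ⟨U, hU1, ?_⟩
  have h1 : iI k (uO k) = PowerSeries.C u := by
    unfold iI uO
    rw [PowerSeries.map_C]
  have h2 : iI k (tO k) = PowerSeries.X := by
    unfold iI tO
    rw [PowerSeries.map_X]
  have h3 : (PowerSeries.C u⁻¹ : PowerSeries (LaurentSeries k)) * PowerSeries.C u = 1 := by
    rw [← map_mul, inv_mul_cancel₀ hu0, map_one]
  rw [hU2, h1, h2]
  linear_combination (-PowerSeries.X) * h3

end series

end Pool.Agent.Helper54.SR
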